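import Pool.Agent.Zk16.Q.E
import Pool.Agent.Zk16.P.D
import Pool.Agent.R418.C5.E

/-! The count in one cell: real inequalities. -/

set_option autoImplicit false

open Finset

namespace Pool.Agent.Zk16.V

section
variable {a b c d f z y : ℝ}

theorem one_le_gen (ha : 1 ≤ a) (hb : 1 ≤ b) (hc : 1 ≤ c) (hd : 1 ≤ d) (hf : 1 ≤ f) (hz : 1 ≤ z)
    (hy : 1 ≤ y) (i1 i2 i3 i4 i5 i6 i7 : ℕ) :
    1 ≤ a ^ i1 * b ^ i2 * c ^ i3 * d ^ i4 * f ^ i5 * z ^ i6 * y ^ i7 := by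
  have h1 := one_le_pow₀ (n := i1) ha
  have h2 := one_le_pow₀ (n := i2) hb
  have h3 := one_le_pow₀ (n := i3) hc
  have h4 := one_le_pow₀ (n := i4) hd
  have h5 := one_le_pow₀ (n := i5) hf
  have h6 := one_le_pow₀ (n := i6) hz
  have h7 := one_le_pow₀ (n := i7) hy
  calc (1 : ℝ) = 1 * 1 * 1 * 1 * 1 * 1 * 1 := by norm_num
    _ ≤ _ := by gcongr

/-- comparison of monomials -/
theorem mono_le (ha : 1 ≤ a) (hb : 1 ≤ b) (hc : 1 ≤ c) (hd : 1 ≤ d) (hf : 1 ≤ f) (hz : 1 ≤ z)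
    (hy : 1 ≤ y) {i1 i2 i3 i4 i5 i6 i7 j1 j2 j3 j4 j5 j6 j7 : ℕ} (h1 : i1 ≤ j1) (h2 : i2 ≤ j2)
    (h3 : i3 ≤ j3) (h4 : i4 ≤ j4) (h5 : i5 ≤ j5) (h6 : i6 ≤ j6) (h7 : i7 ≤ j7) :
    a ^ i1 * b ^ i2 * c ^ i3 * d ^ i4 * f ^ i5 * z ^ i6 * y ^ i7 ≤
      a ^ j1 * b ^ j2 * c ^ j3 * d ^ j4 * f ^ j5 * z ^ j6 * y ^ j7 := by
  gcongr <;> assumption

end

/-- a cell of points -/
structure Cel (B Θ a b c d f z y X : ℝ) (e : ℤ × ℤ) : Prop where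
  x1 : X ≤ (e.1 : ℝ)
  x2 : (e.1 : ℝ) ≤ 4 * X
  y0 : 0 < e.2
  y2 : (e.2 : ℝ) ^ 2 ≤ 2 * (e.1 : ℝ) ^ 3
  ne : e.1 ^ 3 ≠ e.2 ^ 2
  cub : ∃ m : ℤ, 1 ≤ m ∧ (m : ℝ) ≤ 512 * (b * c * d ^ 2 * f ^ 3 * z * y) ∧ (∃ t a b : ℤ,
    m * a = t ^ 2 - e.1 ∧ m ^ 2 * b = t ^ 3 - 3 * e.1 * t + 2 * e.2) ∧
    |(e.1 : ℝ) ^ 3 - (e.2 : ℝ) ^ 2| ≤ (B * Θ * (a * c * z * y ^ 2)) * (m : ℝ) ^ 2
  qua : ∃ w : ℤ, 1 ≤ w ∧ (w : ℝ) ≤ 32 * (c * d * f ^ 2 * y) ∧ (∃ t a b c : ℤ,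
    w * a = t ^ 2 - e.1 ∧ w ^ 2 * b = t ^ 3 - 3 * e.1 * t + 2 * e.2 ∧
    w ^ 3 * c = t ^ 4 - 6 * e.1 * t ^ 2 + 8 * e.2 * t - 3 * e.1 ^ 2) ∧
    |(e.1 : ℝ) ^ 3 - (e.2 : ℝ) ^ 2| ≤ (B * Θ * (a * b ^ 2 * d * z ^ 3 * y)) * (w : ℝ) ^ 3
  tot : |(e.1 : ℝ) ^ 3 - (e.2 : ℝ) ^ 2| ≤
    B * Θ * (a * b ^ 2 * c ^ 3 * d ^ 4 * f ^ 6 * z ^ 3 * y ^ 4)
  r3 : ∀ r : ℤ, r ^ 3 - 3 * e.1 * r + 2 * e.2 ≠ 0
  r4 : ∀ r : ℤ, r ^ 4 - 6 * e.1 * r ^ 2 + 8 * e.2 * r - 3 * e.1 ^ 2 ≠ 0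

/-- the trivial count -/
theorem triv {B Θ a b c d f z y X : ℝ} (hX : 1 ≤ X) (S : Finset (ℤ × ℤ))
    (hS : ∀ e ∈ S, Cel B Θ a b c d f z y X e) : (S.card : ℝ) ≤ 400 * X ^ ((5 : ℝ) / 2) := by
  have hX0 : 0 < X := by linarith
  have h32 : 1 ≤ X ^ ((3 : ℝ) / 2) := Real.one_le_rpow hX (by norm_num)
  have hsub : S ⊆ (Icc (-⌊4 * X⌋) ⌊4 * X⌋) ×ˢ
      (Icc (-⌊12 * X ^ ((3 : ℝ) / 2)⌋) ⌊12 * X ^ ((3 : ℝ) / 2)⌋) := by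
    intro e he
    have h := hS e he
    rw [mem_product]
    constructor
    · apply Pool.Agent.H925R.Hall.mem_box
      rw [abs_of_pos (by linarith [h.x1])]
      exact h.x2
    · apply Pool.Agent.H925R.Hall.mem_box
      apply abs_le_of_sq_le_sq _ (by positivity)
      have h1 := h.x1
      have h2 := h.x2
      calc (e.2 : ℝ) ^ 2 ≤ 2 * (e.1 : ℝ) ^ 3 := h.y2
        _ ≤ 2 * (4 * X) ^ 3 := by
            have : (0 : ℝ) ≤ e.1 := by linarith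
            gcongr
        _ = 128 * X ^ 3 := by ring
        _ ≤ 144 * X ^ 3 := by
            have : 0 < X ^ 3 := by positivity
            linarith
        _ = (12 * X ^ ((3 : ℝ) / 2)) ^ 2 := by
            rw [mul_pow, ← Real.rpow_natCast (X ^ ((3 : ℝ) / 2)), ← Real.rpow_mul hX0.le]
            norm_num
  have h1 := card_le_card hsub
  rw [card_product] at h1
  have h2 := Pool.Agent.H925R.Hall.card_box (4 * X) (by positivity)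
  have h3 := Pool.Agent.H925R.Hall.card_box (12 * X ^ ((3 : ℝ) / 2)) (by positivity)
  calc (S.card : ℝ) ≤ ((Icc (-⌊4 * X⌋) ⌊4 * X⌋).card : ℝ) *
        ((Icc (-⌊12 * X ^ ((3 : ℝ) / 2)⌋) ⌊12 * X ^ ((3 : ℝ) / 2)⌋).card : ℝ) := by
        exact_mod_cast h1
    _ ≤ (2 * (4 * X) + 1) * (2 * (12 * X ^ ((3 : ℝ) / 2)) + 1) :=
        mul_le_mul h2 h3 (Nat.cast_nonneg _) (by positivity)
    _ ≤ (9 * X) * (25 * X ^ ((3 : ℝ) / 2)) := by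
        apply mul_le_mul (by linarith) (by linarith) (by positivity) (by positivity)
    _ = 225 * (X ^ (1 : ℝ) * X ^ ((3 : ℝ) / 2)) := by rw [Real.rpow_one]; ring
    _ = 225 * X ^ ((5 : ℝ) / 2) := by
        rw [← Real.rpow_add hX0]; norm_num
    _ ≤ 400 * X ^ ((5 : ℝ) / 2) := by
        have : 0 ≤ X ^ ((5 : ℝ) / 2) := by positivity
        linarith

/-- use of the cubic count -/
theorem useC {B Θ a b c d f z y X K η : ℝ} (hK : ∀ X D M : ℝ, 1 ≤ D → 1 ≤ M →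
    36 * √D ≤ X → 6 * M * D ^ ((1 : ℝ) / 4) ≤ X → ∀ S : Finset (ℤ × ℤ),
      (∀ e ∈ S, Pool.Agent.R418.C5.Sqp X D M e) →
      (S.card : ℝ) ≤ K * D ^ (1 + η) * (1 + M / √X)) (hX : 0 < X)
    (hD : 1 ≤ B * Θ * (a * c * z * y ^ 2)) (hM : 1 ≤ 512 * (b * c * d ^ 2 * f ^ 3 * z * y))
    (h1 : 1296 * (B * Θ * (a * c * z * y ^ 2)) ≤ X ^ 2)
    (h2 : 1296 * (512 * (b * c * d ^ 2 * f ^ 3 * z * y)) ^ 4 * (B * Θ * (a * c * z * y ^ 2)) ≤ X ^ 4)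
    (S : Finset (ℤ × ℤ)) (hS : ∀ e ∈ S, Cel B Θ a b c d f z y X e) :
    (S.card : ℝ) ≤ K * (B * Θ * (a * c * z * y ^ 2)) ^ (1 + η) *
      (1 + (512 * (b * c * d ^ 2 * f ^ 3 * z * y)) / √X) := by
  set D := B * Θ * (a * c * z * y ^ 2) with hDd
  set M := 512 * (b * c * d ^ 2 * f ^ 3 * z * y) with hMd
  have hD0 : 0 < D := by linarith
  apply hK X D M hD hM
  · apply abs_le_of_sq_le_sq' _ hX.le |>.2
    rw [mul_pow, Real.sq_sqrt hD0.le]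
    linarith
  · have e1 : (6 * M * D ^ ((1 : ℝ) / 4)) ^ 4 ≤ X ^ 4 := by
      rw [mul_pow, ← Real.rpow_natCast (D ^ ((1 : ℝ) / 4)), ← Real.rpow_mul hD0.le]
      norm_num
      calc (6 * M) ^ 4 * D = 1296 * M ^ 4 * D := by ring
        _ ≤ X ^ 4 := h2
    exact le_of_pow_le_pow_left₀ (by norm_num) hX.le e1
  · intro e he
    have h := hS e he
    exact ⟨h.x1, h.x2, h.y0, h.ne, h.cub, fun r hr => absurd hr (h.r3 r)⟩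

/-- use of the quartic count -/
theorem useQ {B Θ a b c d f z y X K η : ℝ} (hK : ∀ X T W : ℝ, 1 ≤ T → 1 ≤ W →
    36 * T ^ ((1 : ℝ) / 3) ≤ √X → 10 * W * T ^ ((1 : ℝ) / 3) ≤ X → ∀ S : Finset (ℤ × ℤ),
      (∀ e ∈ S, Pool.Agent.Zk16.Q.Sqq X T W e) →
      (S.card : ℝ) ≤ K * T ^ (1 + η) * (1 + W / √X)) (hX : 0 < X)
    (hT : 1 ≤ B * Θ * (a * b ^ 2 * d * z ^ 3 * y)) (hW : 1 ≤ 32 * (c * d * f ^ 2 * y))
    (h1 : 46656 * (B * Θ * (a * b ^ 2 * d * z ^ 3 * y)) ≤ √X ^ 3)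
    (h2 : 1000 * (32 * (c * d * f ^ 2 * y)) ^ 3 * (B * Θ * (a * b ^ 2 * d * z ^ 3 * y)) ≤ X ^ 3)
    (S : Finset (ℤ × ℤ)) (hS : ∀ e ∈ S, Cel B Θ a b c d f z y X e) :
    (S.card : ℝ) ≤ K * (B * Θ * (a * b ^ 2 * d * z ^ 3 * y)) ^ (1 + η) *
      (1 + (32 * (c * d * f ^ 2 * y)) / √X) := by
  set T := B * Θ * (a * b ^ 2 * d * z ^ 3 * y) with hTd
  set W := 32 * (c * d * f ^ 2 * y) with hWd
  have hT0 : 0 < T := by linarith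
  have hsX : 0 ≤ √X := Real.sqrt_nonneg X
  apply hK X T W hT hW
  · have e1 : (36 * T ^ ((1 : ℝ) / 3)) ^ 3 ≤ √X ^ 3 := by
      rw [mul_pow, ← Real.rpow_natCast (T ^ ((1 : ℝ) / 3)), ← Real.rpow_mul hT0.le]
      norm_num
      linarith
    exact le_of_pow_le_pow_left₀ (by norm_num) hsX e1
  · have e1 : (10 * W * T ^ ((1 : ℝ) / 3)) ^ 3 ≤ X ^ 3 := by
      rw [mul_pow, ← Real.rpow_natCast (T ^ ((1 : ℝ) / 3)), ← Real.rpow_mul hT0.le]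
      norm_num
      calc (10 * W) ^ 3 * T = 1000 * W ^ 3 * T := by ring
        _ ≤ X ^ 3 := h2
    exact le_of_pow_le_pow_left₀ (by norm_num) hX.le e1
  · intro e he
    have h := hS e he
    exact ⟨h.x1, h.x2, h.y0, h.ne, h.qua, h.r4⟩

end Pool.Agent.Zk16.V
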