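import Pool.Agent.Zk16.V.A

/-! The count in one cell. -/

set_option autoImplicit false

open Finset

namespace Pool.Agent.Zk16.V

section
variable {a b c d f z y Z E ω B X : ℝ}

/-- the size parameters of a cell -/
structure Par (a b c d f z y Z E ω B X : ℝ) : Prop where
  ha : 1 ≤ a
  hb : 1 ≤ b
  hc : 1 ≤ c
  hd : 1 ≤ d
  hf : 1 ≤ f
  hz : 1 ≤ z
  hy : 1 ≤ y
  hB : 1 ≤ B
  hω : 1 ≤ ω
  hE1 : 1 ≤ E
  hX1 : 1 ≤ X
  hn : a * b * c * d * f * z ^ 2 * y ^ 2 ≤ Z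
  hX : (a * b * c * d * f * z ^ 2 * y ^ 2) * E ≤ 4 * √X

theorem Par.npos (h : Par a b c d f z y Z E ω B X) : 1 ≤ a * b * c * d * f * z ^ 2 * y ^ 2 := by
  have := one_le_gen h.ha h.hb h.hc h.hd h.hf h.hz h.hy 1 1 1 1 1 2 2
  simpa using this

theorem Par.le (h : Par a b c d f z y Z E ω B X) {i1 i2 i3 i4 i5 i6 i7 j1 j2 j3 j4 j5 j6 j7 : ℕ}
    (h1 : i1 ≤ j1) (h2 : i2 ≤ j2) (h3 : i3 ≤ j3) (h4 : i4 ≤ j4) (h5 : i5 ≤ j5) (h6 : i6 ≤ j6)
    (h7 : i7 ≤ j7) :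
    a ^ i1 * b ^ i2 * c ^ i3 * d ^ i4 * f ^ i5 * z ^ i6 * y ^ i7 ≤
      a ^ j1 * b ^ j2 * c ^ j3 * d ^ j4 * f ^ j5 * z ^ j6 * y ^ j7 :=
  mono_le h.ha h.hb h.hc h.hd h.hf h.hz h.hy h1 h2 h3 h4 h5 h6 h7

theorem Par.ge (h : Par a b c d f z y Z E ω B X) (i1 i2 i3 i4 i5 i6 i7 : ℕ) :
    1 ≤ a ^ i1 * b ^ i2 * c ^ i3 * d ^ i4 * f ^ i5 * z ^ i6 * y ^ i7 :=
  one_le_gen h.ha h.hb h.hc h.hd h.hf h.hz h.hy i1 i2 i3 i4 i5 i6 i7

theorem Par.sX2 (h : Par a b c d f z y Z E ω B X) :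
    (a * b * c * d * f * z ^ 2 * y ^ 2) ^ 2 * E ^ 2 ≤ 16 * X := by
  have h1 := h.npos
  have h2 := h.hE1
  have h3 : ((a * b * c * d * f * z ^ 2 * y ^ 2) * E) ^ 2 ≤ (4 * √X) ^ 2 := by
    have := h.hX
    gcongr
  have h4 : (4 * √X) ^ 2 = 16 * X := by
    rw [mul_pow, Real.sq_sqrt (by linarith [h.hX1])]
    norm_num
  rw [h4] at h3
  calc (a * b * c * d * f * z ^ 2 * y ^ 2) ^ 2 * E ^ 2 =
      ((a * b * c * d * f * z ^ 2 * y ^ 2) * E) ^ 2 := by ring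
    _ ≤ 16 * X := h3

/-- the main term of the quartic count -/
theorem Par.qmain (h : Par a b c d f z y Z E ω B X)
    (hq : a * b ^ 2 * d * z ^ 3 * y ≤ Z / ω ^ 4) (hE : ω ^ 4 ≤ E) :
    (a * b ^ 2 * d * z ^ 3 * y) * (1 + 32 * (c * d * f ^ 2 * y) / √X) ≤ 129 * (Z / ω ^ 4) := by
  have hn := h.npos
  have hE0 : 0 < E := by linarith [h.hE1]
  have hω0 : 0 < ω := by linarith [h.hω]
  have hsX : 0 < √X := Real.sqrt_pos.mpr (by linarith [h.hX1])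
  set n := a * b * c * d * f * z ^ 2 * y ^ 2 with hnd
  have hX := h.hX
  have e1 : (a * b ^ 2 * d * z ^ 3 * y) * (c * d * f ^ 2 * y) = n * (b * d * f * z) := by
    rw [hnd]; ring
  have h2 : b * d * f * z ≤ n := by
    have := h.le (i1 := 0) (i2 := 1) (i3 := 0) (i4 := 1) (i5 := 1) (i6 := 1) (i7 := 0)
      (j1 := 1) (j2 := 1) (j3 := 1) (j4 := 1) (j5 := 1) (j6 := 2) (j7 := 2) (by norm_num)
      (by norm_num) (by norm_num) (by norm_num) (by norm_num) (by norm_num) (by norm_num)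
    simpa using this
  have h3 : (a * b ^ 2 * d * z ^ 3 * y) * (32 * (c * d * f ^ 2 * y) / √X) ≤ 128 * (Z / ω ^ 4) := by
    have e2 : (a * b ^ 2 * d * z ^ 3 * y) * (32 * (c * d * f ^ 2 * y) / √X) =
        32 * (n * (b * d * f * z)) / √X := by rw [← e1]; ring
    rw [e2, div_le_iff₀ hsX]
    have h4 : b * d * f * z ≤ Z / ω ^ 4 * E := by
      rw [div_mul_eq_mul_div, le_div_iff₀ (by positivity)]
      calc b * d * f * z * ω ^ 4 ≤ n * E := by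
            apply mul_le_mul h2 hE (by positivity) (by linarith)
        _ ≤ Z * E := by
            apply mul_le_mul_of_nonneg_right h.hn hE0.le
    have hZ0 : 0 ≤ Z / ω ^ 4 := by
      have : 0 ≤ Z := by linarith [h.hn]
      positivity
    calc 32 * (n * (b * d * f * z)) ≤ 32 * (n * (Z / ω ^ 4 * E)) := by gcongr
      _ = 32 * (Z / ω ^ 4) * (n * E) := by ring
      _ ≤ 32 * (Z / ω ^ 4) * (4 * √X) := by gcongr
      _ = 128 * (Z / ω ^ 4) * √X := by ring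
  have e3 : (a * b ^ 2 * d * z ^ 3 * y) * (1 + 32 * (c * d * f ^ 2 * y) / √X) =
      a * b ^ 2 * d * z ^ 3 * y + (a * b ^ 2 * d * z ^ 3 * y) *
        (32 * (c * d * f ^ 2 * y) / √X) := by ring
  rw [e3]
  linarith

/-- the main term of the cubic count -/
theorem Par.cmain (h : Par a b c d f z y Z E ω B X)
    (hg : a * c * z * y ^ 2 ≤ Z / ω ^ 4) (hh : c * d * f ^ 2 * y ≤ E * (Z / ω ^ 4)) :
    (a * c * z * y ^ 2) * (1 + 512 * (b * c * d ^ 2 * f ^ 3 * z * y) / √X) ≤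
      2049 * (Z / ω ^ 4) := by
  have hn := h.npos
  have hE0 : 0 < E := by linarith [h.hE1]
  have hω0 : 0 < ω := by linarith [h.hω]
  have hsX : 0 < √X := Real.sqrt_pos.mpr (by linarith [h.hX1])
  set n := a * b * c * d * f * z ^ 2 * y ^ 2 with hnd
  have hX := h.hX
  have e1 : (a * c * z * y ^ 2) * (b * c * d ^ 2 * f ^ 3 * z * y) = n * (c * d * f ^ 2 * y) := by
    rw [hnd]; ring
  have h3 : (a * c * z * y ^ 2) * (512 * (b * c * d ^ 2 * f ^ 3 * z * y) / √X) ≤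
      2048 * (Z / ω ^ 4) := by
    have e2 : (a * c * z * y ^ 2) * (512 * (b * c * d ^ 2 * f ^ 3 * z * y) / √X) =
        512 * (n * (c * d * f ^ 2 * y)) / √X := by rw [← e1]; ring
    rw [e2, div_le_iff₀ hsX]
    have hZ0 : 0 ≤ Z / ω ^ 4 := by
      have : 0 ≤ Z := by linarith [h.hn]
      positivity
    calc 512 * (n * (c * d * f ^ 2 * y)) ≤ 512 * (n * (E * (Z / ω ^ 4))) := by gcongr
      _ = 512 * (Z / ω ^ 4) * (n * E) := by ring
      _ ≤ 512 * (Z / ω ^ 4) * (4 * √X) := by gcongr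
      _ = 2048 * (Z / ω ^ 4) * √X := by ring
  have e3 : (a * c * z * y ^ 2) * (1 + 512 * (b * c * d ^ 2 * f ^ 3 * z * y) / √X) =
      a * c * z * y ^ 2 + (a * c * z * y ^ 2) *
        (512 * (b * c * d ^ 2 * f ^ 3 * z * y) / √X) := by ring
  rw [e3]
  linarith

theorem Par.q_le (h : Par a b c d f z y Z E ω B X) :
    a * b ^ 2 * d * z ^ 3 * y ≤ (a * b * c * d * f * z ^ 2 * y ^ 2) ^ 2 := by
  have := h.le (i1 := 1) (i2 := 2) (i3 := 0) (i4 := 1) (i5 := 0) (i6 := 3) (i7 := 1)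
    (j1 := 2) (j2 := 2) (j3 := 2) (j4 := 2) (j5 := 2) (j6 := 4) (j7 := 4) (by norm_num)
    (by norm_num) (by norm_num) (by norm_num) (by norm_num) (by norm_num) (by norm_num)
  calc a * b ^ 2 * d * z ^ 3 * y = a ^ 1 * b ^ 2 * c ^ 0 * d ^ 1 * f ^ 0 * z ^ 3 * y ^ 1 := by ring
    _ ≤ _ := this
    _ = _ := by ring

/-- the full monomial -/
theorem Par.t_le (h : Par a b c d f z y Z E ω B X) :
    a * b ^ 2 * c ^ 3 * d ^ 4 * f ^ 6 * z ^ 3 * y ^ 4 ≤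
      (a * b * c * d * f * z ^ 2 * y ^ 2) ^ 6 := by
  have := h.le (i1 := 1) (i2 := 2) (i3 := 3) (i4 := 4) (i5 := 6) (i6 := 3) (i7 := 4)
    (j1 := 6) (j2 := 6) (j3 := 6) (j4 := 6) (j5 := 6) (j6 := 12) (j7 := 12) (by norm_num)
    (by norm_num) (by norm_num) (by norm_num) (by norm_num) (by norm_num) (by norm_num)
  calc a * b ^ 2 * c ^ 3 * d ^ 4 * f ^ 6 * z ^ 3 * y ^ 4 =
      a ^ 1 * b ^ 2 * c ^ 3 * d ^ 4 * f ^ 6 * z ^ 3 * y ^ 4 := by ring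
    _ ≤ _ := this
    _ = _ := by ring

/-- validity of the quartic count -/
theorem Par.vq (h : Par a b c d f z y Z E ω B X) (hE : 10 ^ 60 * B * ω ^ 10 ≤ E) :
    46656 * (B * ω * (a * b ^ 2 * d * z ^ 3 * y)) ≤ √X ^ 3 ∧
    1000 * (32 * (c * d * f ^ 2 * y)) ^ 3 * (B * ω * (a * b ^ 2 * d * z ^ 3 * y)) ≤ X ^ 3 := by
  have hn := h.npos
  have hB := h.hB
  have hω := h.hω
  have hX1 := h.hX1
  have hE1 := h.hE1
  have hsX : 0 < √X := Real.sqrt_pos.mpr (by linarith)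
  have hq := h.q_le
  have ht := h.t_le
  have hX := h.hX
  have hX2 := h.sX2
  set n := a * b * c * d * f * z ^ 2 * y ^ 2 with hnd
  have hBω : B * ω ≤ 10 ^ 60 * B * ω ^ 10 := by
    have h1 : ω ≤ ω ^ 10 := le_self_pow₀ hω (by norm_num)
    calc B * ω = 1 * B * ω := by ring
      _ ≤ 10 ^ 60 * B * ω ^ 10 := by gcongr; norm_num
  have hBωE : 10 ^ 60 * (B * ω) ≤ E := by
    have h1 : ω ≤ ω ^ 10 := le_self_pow₀ hω (by norm_num)
    calc 10 ^ 60 * (B * ω) ≤ 10 ^ 60 * (B * ω ^ 10) := by gcongr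
      _ = 10 ^ 60 * B * ω ^ 10 := by ring
      _ ≤ E := hE
  constructor
  · have h3 : (n * E) ^ 3 ≤ (4 * √X) ^ 3 := by gcongr
    have h4 : 46656 * 64 * (B * ω * (a * b ^ 2 * d * z ^ 3 * y)) ≤ (n * E) ^ 3 := by
      have k1 : 46656 * 64 * (B * ω) ≤ E := by
        have : 0 ≤ B * ω := by positivity
        linarith
      have k2 : E ≤ E ^ 3 := le_self_pow₀ hE1 (by norm_num)
      have k3 : n ^ 2 ≤ n ^ 3 := pow_le_pow_right₀ hn (by norm_num)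
      calc 46656 * 64 * (B * ω * (a * b ^ 2 * d * z ^ 3 * y)) =
          (46656 * 64 * (B * ω)) * (a * b ^ 2 * d * z ^ 3 * y) := by ring
        _ ≤ E ^ 3 * n ^ 3 := by
            apply mul_le_mul (k1.trans k2) (hq.trans k3) _ (by positivity)
            have := h.ge 1 2 0 1 0 3 1
            have e : a * b ^ 2 * d * z ^ 3 * y = a ^ 1 * b ^ 2 * c ^ 0 * d ^ 1 * f ^ 0 * z ^ 3 * y ^ 1 := by
              ring
            rw [e]; linarith
        _ = (n * E) ^ 3 := by ring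
    nlinarith
  · have h3 : (n ^ 2 * E ^ 2) ^ 3 ≤ (16 * X) ^ 3 := by gcongr
    have h4 : 1000 * 32768 * 4096 * (B * ω) * (a * b ^ 2 * c ^ 3 * d ^ 4 * f ^ 6 * z ^ 3 * y ^ 4) ≤
        (n ^ 2 * E ^ 2) ^ 3 := by
      have k1 : 1000 * 32768 * 4096 * (B * ω) ≤ E := by
        have : 0 ≤ B * ω := by positivity
        linarith
      have k2 : E ≤ E ^ 6 := le_self_pow₀ hE1 (by norm_num)
      calc 1000 * 32768 * 4096 * (B * ω) * (a * b ^ 2 * c ^ 3 * d ^ 4 * f ^ 6 * z ^ 3 * y ^ 4) ≤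
          E ^ 6 * n ^ 6 := by
            apply mul_le_mul (k1.trans k2) ht _ (by positivity)
            have := h.ge 1 2 3 4 6 3 4
            have e : a * b ^ 2 * c ^ 3 * d ^ 4 * f ^ 6 * z ^ 3 * y ^ 4 =
              a ^ 1 * b ^ 2 * c ^ 3 * d ^ 4 * f ^ 6 * z ^ 3 * y ^ 4 := by ring
            rw [e]; linarith
        _ = (n ^ 2 * E ^ 2) ^ 3 := by ring
    have e5 : 1000 * (32 * (c * d * f ^ 2 * y)) ^ 3 * (B * ω * (a * b ^ 2 * d * z ^ 3 * y)) =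
        1000 * 32768 * (B * ω) * (a * b ^ 2 * c ^ 3 * d ^ 4 * f ^ 6 * z ^ 3 * y ^ 4) := by ring
    rw [e5]
    nlinarith

/-- validity of the cubic count -/
theorem Par.vc1 (h : Par a b c d f z y Z E ω B X) (hE : 10 ^ 60 * B * ω ^ 10 ≤ E) :
    1296 * (B * ω * (a * c * z * y ^ 2)) ≤ X ^ 2 := by
  have hn := h.npos
  have hB := h.hB
  have hω := h.hω
  have hX1 := h.hX1
  have hE1 := h.hE1
  have hX2 := h.sX2
  have hg : a * c * z * y ^ 2 ≤ (a * b * c * d * f * z ^ 2 * y ^ 2) ^ 4 := by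
    have := h.le (i1 := 1) (i2 := 0) (i3 := 1) (i4 := 0) (i5 := 0) (i6 := 1) (i7 := 2)
      (j1 := 4) (j2 := 4) (j3 := 4) (j4 := 4) (j5 := 4) (j6 := 8) (j7 := 8) (by norm_num)
      (by norm_num) (by norm_num) (by norm_num) (by norm_num) (by norm_num) (by norm_num)
    calc a * c * z * y ^ 2 = a ^ 1 * b ^ 0 * c ^ 1 * d ^ 0 * f ^ 0 * z ^ 1 * y ^ 2 := by ring
      _ ≤ _ := this
      _ = _ := by ring
  have hg0 : 1 ≤ a * c * z * y ^ 2 := by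
    have := h.ge 1 0 1 0 0 1 2
    calc (1 : ℝ) ≤ _ := this
      _ = _ := by ring
  set n := a * b * c * d * f * z ^ 2 * y ^ 2 with hnd
  have hBωE : 10 ^ 60 * (B * ω) ≤ E := by
    have h1 : ω ≤ ω ^ 10 := le_self_pow₀ hω (by norm_num)
    calc 10 ^ 60 * (B * ω) ≤ 10 ^ 60 * (B * ω ^ 10) := by gcongr
      _ = 10 ^ 60 * B * ω ^ 10 := by ring
      _ ≤ E := hE
  have h3 : (n ^ 2 * E ^ 2) ^ 2 ≤ (16 * X) ^ 2 := by gcongr
  have k1 : 1296 * 256 * (B * ω) ≤ E := by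
    have : 0 ≤ B * ω := by positivity
    linarith
  have k2 : E ≤ E ^ 4 := le_self_pow₀ hE1 (by norm_num)
  have h4 : 1296 * 256 * (B * ω) * (a * c * z * y ^ 2) ≤ (n ^ 2 * E ^ 2) ^ 2 := by
    calc 1296 * 256 * (B * ω) * (a * c * z * y ^ 2) ≤ E ^ 4 * n ^ 4 :=
          mul_le_mul (k1.trans k2) hg (by linarith) (by positivity)
      _ = _ := by ring
  nlinarith

theorem Par.vc2 (h : Par a b c d f z y Z E ω B X) (hE : 10 ^ 60 * B * ω ^ 10 ≤ E)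
    (hq : Z / ω ^ 4 < a * b ^ 2 * d * z ^ 3 * y) :
    1296 * (512 * (b * c * d ^ 2 * f ^ 3 * z * y)) ^ 4 * (B * ω * (a * c * z * y ^ 2)) ≤ X ^ 4 := by
  by_contra hcon
  push Not at hcon
  have hn := h.npos
  have hB := h.hB
  have hω := h.hω
  have hX1 := h.hX1
  have hE1 := h.hE1
  have hX2 := h.sX2
  have hZ := h.hn
  set n := a * b * c * d * f * z ^ 2 * y ^ 2 with hnd
  set q := a * b ^ 2 * d * z ^ 3 * y with hqd
  have hq0 : 0 < q := by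
    have : 0 ≤ Z / ω ^ 4 := by
      have : 0 ≤ Z := by linarith
      positivity
    linarith
  set m1 := a * b ^ 4 * c ^ 5 * d ^ 8 * f ^ 12 * z ^ 5 * y ^ 6 with hm1
  have hm : q ^ 4 * m1 ≤ n ^ 12 := by
    have := h.le (i1 := 5) (i2 := 12) (i3 := 5) (i4 := 12) (i5 := 12) (i6 := 17) (i7 := 10)
      (j1 := 12) (j2 := 12) (j3 := 12) (j4 := 12) (j5 := 12) (j6 := 24) (j7 := 24) (by norm_num)
      (by norm_num) (by norm_num) (by norm_num) (by norm_num) (by norm_num) (by norm_num)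
    calc q ^ 4 * m1 = a ^ 5 * b ^ 12 * c ^ 5 * d ^ 12 * f ^ 12 * z ^ 17 * y ^ 10 := by
          rw [hqd, hm1]; ring
      _ ≤ _ := this
      _ = n ^ 12 := by rw [hnd]; ring
  set Kc : ℝ := 1296 * 512 ^ 4 * 65536 with hKc
  have h3 : n ^ 8 * E ^ 8 < Kc * (B * ω) * m1 := by
    have h4 : (n ^ 2 * E ^ 2) ^ 4 ≤ (16 * X) ^ 4 := by gcongr
    have e5 : 1296 * (512 * (b * c * d ^ 2 * f ^ 3 * z * y)) ^ 4 * (B * ω * (a * c * z * y ^ 2)) =
        1296 * 512 ^ 4 * (B * ω) * m1 := by rw [hm1]; ring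
    rw [e5] at hcon
    calc n ^ 8 * E ^ 8 = (n ^ 2 * E ^ 2) ^ 4 := by ring
      _ ≤ (16 * X) ^ 4 := h4
      _ = 65536 * X ^ 4 := by ring
      _ < 65536 * (1296 * 512 ^ 4 * (B * ω) * m1) := by linarith
      _ = Kc * (B * ω) * m1 := by rw [hKc]; ring
  have h5 : q ^ 4 * E ^ 8 * n ^ 8 < Kc * (B * ω) * n ^ 4 * n ^ 8 := by
    calc q ^ 4 * E ^ 8 * n ^ 8 = q ^ 4 * (n ^ 8 * E ^ 8) := by ring
      _ < q ^ 4 * (Kc * (B * ω) * m1) := by gcongr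
      _ = Kc * (B * ω) * (q ^ 4 * m1) := by ring
      _ ≤ Kc * (B * ω) * n ^ 12 := by gcongr
      _ = _ := by ring
  have h6 := lt_of_mul_lt_mul_right h5 (by positivity)
  have h7 : Z ^ 4 * E ^ 8 < Kc * (B * ω) * Z ^ 4 * ω ^ 16 := by
    have k1 : Z ≤ q * ω ^ 4 := by
      rw [div_lt_iff₀ (by positivity)] at hq
      exact hq.le
    have hZ0 : 0 < Z := by linarith
    calc Z ^ 4 * E ^ 8 ≤ (q * ω ^ 4) ^ 4 * E ^ 8 := by gcongr
      _ = (q ^ 4 * E ^ 8) * ω ^ 16 := by ring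
      _ < (Kc * (B * ω) * n ^ 4) * ω ^ 16 := by gcongr
      _ ≤ (Kc * (B * ω) * Z ^ 4) * ω ^ 16 := by gcongr
      _ = _ := by ring
  have hZ0 : 0 < Z := by linarith
  have h8 : E ^ 8 < Kc * B * ω ^ 17 := by
    have : Z ^ 4 * E ^ 8 < Z ^ 4 * (Kc * B * ω ^ 17) := by
      calc Z ^ 4 * E ^ 8 < Kc * (B * ω) * Z ^ 4 * ω ^ 16 := h7
        _ = _ := by ring
    exact lt_of_mul_lt_mul_left this (by positivity)
  have h9 : Kc * B * ω ^ 17 ≤ E ^ 8 := by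
    have k0 : (10 ^ 60 * B * ω ^ 10) * ω ^ 10 ≤ E * E := by
      have : ω ^ 10 ≤ E := by
        refine le_trans ?_ hE
        calc ω ^ 10 = 1 * 1 * ω ^ 10 := by ring
          _ ≤ 10 ^ 60 * B * ω ^ 10 := by gcongr; norm_num
      gcongr
    have k1 : ω ^ 17 ≤ ω ^ 20 := pow_le_pow_right₀ hω (by norm_num)
    calc Kc * B * ω ^ 17 ≤ 10 ^ 60 * B * ω ^ 20 := by
          gcongr
          rw [hKc]; norm_num
      _ = (10 ^ 60 * B * ω ^ 10) * ω ^ 10 := by ring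
      _ ≤ E * E := k0
      _ = E ^ 2 := by ring
      _ ≤ E ^ 8 := pow_le_pow_right₀ hE1 (by norm_num)
  linarith

/-- the second term of the cubic count is small if the first term of the quartic count is large -/
theorem Par.hh (h : Par a b c d f z y Z E ω B X) (hE : 10 ^ 60 * B * ω ^ 10 ≤ E)
    (hq : Z / ω ^ 4 < a * b ^ 2 * d * z ^ 3 * y) : c * d * f ^ 2 * y ≤ E * (Z / ω ^ 4) := by
  by_contra hcon
  push Not at hcon
  have hn := h.npos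
  have hB := h.hB
  have hω := h.hω
  have hE1 := h.hE1
  have hZ := h.hn
  set n := a * b * c * d * f * z ^ 2 * y ^ 2 with hnd
  have hZ0 : 0 < Z := by linarith
  have h2 : b * d * f * z ≤ n := by
    have := h.le (i1 := 0) (i2 := 1) (i3 := 0) (i4 := 1) (i5 := 1) (i6 := 1) (i7 := 0)
      (j1 := 1) (j2 := 1) (j3 := 1) (j4 := 1) (j5 := 1) (j6 := 2) (j7 := 2) (by norm_num)
      (by norm_num) (by norm_num) (by norm_num) (by norm_num) (by norm_num) (by norm_num)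
    simpa using this
  have hZω : 0 < Z / ω ^ 4 := by positivity
  have h3 : (Z / ω ^ 4) * (E * (Z / ω ^ 4)) < Z * Z := by
    calc (Z / ω ^ 4) * (E * (Z / ω ^ 4)) < (a * b ^ 2 * d * z ^ 3 * y) * (c * d * f ^ 2 * y) :=
          mul_lt_mul'' hq hcon hZω.le (by positivity)
      _ = n * (b * d * f * z) := by rw [hnd]; ring
      _ ≤ n * n := by gcongr
      _ ≤ Z * Z := by gcongr
  have h4 : E < ω ^ 8 := by
    have e : (Z / ω ^ 4) * (E * (Z / ω ^ 4)) = Z * Z * (E / ω ^ 8) := by field_simp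
    rw [e] at h3
    have h5 : E / ω ^ 8 < 1 := by
      by_contra h6
      push Not at h6
      have : Z * Z * 1 ≤ Z * Z * (E / ω ^ 8) := by gcongr
      linarith
    rwa [div_lt_one (by positivity)] at h5
  have h5 : ω ^ 8 ≤ E := by
    refine le_trans ?_ hE
    have k1 : ω ^ 8 ≤ ω ^ 10 := pow_le_pow_right₀ hω (by norm_num)
    have k2 : (1 : ℝ) ≤ 10 ^ 60 * B := by nlinarith
    calc ω ^ 8 = 1 * ω ^ 8 := by ring
      _ ≤ (10 ^ 60 * B) * ω ^ 10 := mul_le_mul k2 k1 (by positivity) (by positivity)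
  linarith

/-- the remaining case -/
theorem Par.rest (h : Par a b c d f z y Z E ω B X)
    (hq : Z / ω ^ 4 < a * b ^ 2 * d * z ^ 3 * y) (hg : Z / ω ^ 4 < a * c * z * y ^ 2) :
    Z ≤ (a * b * c * d * f * z ^ 2 * y ^ 2) * ω ^ 16 ∧
    a * b ^ 2 * c ^ 3 * d ^ 4 * f ^ 6 * z ^ 3 * y ^ 4 ≤ Z * ω ^ 44 := by
  have hn := h.npos
  have hω := h.hω
  have hZ := h.hn
  have ha := h.ha
  have hb := h.hb
  have hc := h.hc
  have hd := h.hd
  have hf := h.hf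
  have hz := h.hz
  have hy := h.hy
  have hω0 : 0 < ω := by linarith
  have hZ0 : 0 < Z := by linarith
  set n := a * b * c * d * f * z ^ 2 * y ^ 2 with hnd
  rw [div_lt_iff₀ (by positivity)] at hq hg
  -- `b d f z < ω⁴`
  have h1 : b * d * f * z ≤ ω ^ 4 := by
    have e : (b * d * f * z) * (a * c * z * y ^ 2) = n := by rw [hnd]; ring
    have hg0 : 0 < a * c * z * y ^ 2 := by positivity
    have h2 : (b * d * f * z) * (a * c * z * y ^ 2) ≤ ω ^ 4 * (a * c * z * y ^ 2) := by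
      rw [e]; linarith
    exact le_of_mul_le_mul_right h2 hg0
  have h2 : b ^ 2 * d * z ^ 3 ≤ ω ^ 12 := by
    have k := h.le (i1 := 0) (i2 := 2) (i3 := 0) (i4 := 1) (i5 := 0) (i6 := 3) (i7 := 0)
      (j1 := 0) (j2 := 3) (j3 := 0) (j4 := 3) (j5 := 3) (j6 := 3) (j7 := 0) (by norm_num)
      (by norm_num) (by norm_num) (by norm_num) (by norm_num) (by norm_num) (by norm_num)
    calc b ^ 2 * d * z ^ 3 = a ^ 0 * b ^ 2 * c ^ 0 * d ^ 1 * f ^ 0 * z ^ 3 * y ^ 0 := by ring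
      _ ≤ _ := k
      _ = (b * d * f * z) ^ 3 := by ring
      _ ≤ (ω ^ 4) ^ 3 := by gcongr
      _ = ω ^ 12 := by ring
  have h3 : Z ≤ (a * y) * ω ^ 16 := by
    calc Z ≤ a * b ^ 2 * d * z ^ 3 * y * ω ^ 4 := hq.le
      _ = (a * y) * (b ^ 2 * d * z ^ 3) * ω ^ 4 := by ring
      _ ≤ (a * y) * ω ^ 12 * ω ^ 4 := by gcongr
      _ = _ := by ring
  have h4 : b * c * d * f * z ^ 2 * y ≤ ω ^ 16 := by
    have hay : 0 < a * y := by positivity
    have h5 : (b * c * d * f * z ^ 2 * y) * (a * y) ≤ ω ^ 16 * (a * y) := by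
      calc (b * c * d * f * z ^ 2 * y) * (a * y) = n := by rw [hnd]; ring
        _ ≤ Z := hZ
        _ ≤ _ := by linarith
    exact le_of_mul_le_mul_right h5 hay
  constructor
  · have k := h.le (i1 := 1) (i2 := 0) (i3 := 0) (i4 := 0) (i5 := 0) (i6 := 0) (i7 := 1)
      (j1 := 1) (j2 := 1) (j3 := 1) (j4 := 1) (j5 := 1) (j6 := 2) (j7 := 2) (by norm_num)
      (by norm_num) (by norm_num) (by norm_num) (by norm_num) (by norm_num) (by norm_num)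
    have k2 : a * y ≤ n := by
      calc a * y = a ^ 1 * b ^ 0 * c ^ 0 * d ^ 0 * f ^ 0 * z ^ 0 * y ^ 1 := by ring
        _ ≤ _ := k
        _ = n := by rw [hnd]; ring
    calc Z ≤ (a * y) * ω ^ 16 := h3
      _ ≤ n * ω ^ 16 := by gcongr
  · have k := h.le (i1 := 0) (i2 := 1) (i3 := 2) (i4 := 3) (i5 := 5) (i6 := 1) (i7 := 2)
      (j1 := 0) (j2 := 5) (j3 := 2) (j4 := 5) (j5 := 5) (j6 := 7) (j7 := 2) (by norm_num)
      (by norm_num) (by norm_num) (by norm_num) (by norm_num) (by norm_num) (by norm_num)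
    have k2 : b * c ^ 2 * d ^ 3 * f ^ 5 * z * y ^ 2 ≤ ω ^ 44 := by
      calc b * c ^ 2 * d ^ 3 * f ^ 5 * z * y ^ 2 =
          a ^ 0 * b ^ 1 * c ^ 2 * d ^ 3 * f ^ 5 * z ^ 1 * y ^ 2 := by ring
        _ ≤ _ := k
        _ = (b * c * d * f * z ^ 2 * y) ^ 2 * (b * d * f * z) ^ 3 := by ring
        _ ≤ (ω ^ 16) ^ 2 * (ω ^ 4) ^ 3 := by gcongr
        _ = ω ^ 44 := by ring
    calc a * b ^ 2 * c ^ 3 * d ^ 4 * f ^ 6 * z ^ 3 * y ^ 4 =
        n * (b * c ^ 2 * d ^ 3 * f ^ 5 * z * y ^ 2) := by rw [hnd]; ring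
      _ ≤ Z * ω ^ 44 := by gcongr

end

end Pool.Agent.Zk16.V
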