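import Pool.Agent.Zk16.V.B

/-! The count in one cell: the class lemma. -/

set_option autoImplicit false

open Finset Filter

namespace Pool.Agent.Zk16.V

theorem ev_pow (C : ℝ) {p q : ℝ} (h : p < q) : ∀ᶠ Z : ℝ in atTop, C * Z ^ p ≤ Z ^ q := by
  have h1 := (tendsto_rpow_atTop (show 0 < q - p by linarith)).eventually (eventually_ge_atTop C)
  filter_upwards [h1, eventually_ge_atTop (1 : ℝ)] with Z h2 h3
  have hZ0 : 0 < Z := by linarith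
  have h4 : Z ^ q = Z ^ (q - p) * Z ^ p := by
    rw [← Real.rpow_add hZ0]; ring_nf
  rw [h4]
  apply mul_le_mul_of_nonneg_right h2 (by positivity)

theorem ev_log (A : ℝ) {p : ℝ} (hp : 0 < p) : ∀ᶠ Z : ℝ in atTop, A * Real.log Z ≤ Z ^ p := by
  have h1 := (isLittleO_log_rpow_atTop hp).bound (show (0 : ℝ) < 1 / (|A| + 1) by positivity)
  filter_upwards [h1, eventually_ge_atTop (1 : ℝ)] with Z h2 h3
  have hZ0 : 0 < Z := by linarith
  have h4 : 0 ≤ Real.log Z := Real.log_nonneg h3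
  have h5 : 0 < Z ^ p := by positivity
  rw [Real.norm_eq_abs, Real.norm_eq_abs, abs_of_nonneg h4, abs_of_pos h5] at h2
  have h6 : (|A| + 1) * Real.log Z ≤ Z ^ p := by
    calc (|A| + 1) * Real.log Z ≤ (|A| + 1) * (1 / (|A| + 1) * Z ^ p) := by gcongr
      _ = Z ^ p := by field_simp
  have h7 : A ≤ |A| + 1 := by linarith [le_abs_self A]
  calc A * Real.log Z ≤ (|A| + 1) * Real.log Z := by gcongr
    _ ≤ Z ^ p := h6

/-- powers of `ω` -/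
theorem om_pow {Z ε : ℝ} (hZ : 0 < Z) (k : ℕ) :
    (Z ^ (ε / 80000)) ^ k = Z ^ (k * (ε / 80000)) := by
  rw [← Real.rpow_natCast (Z ^ (ε / 80000)), ← Real.rpow_mul hZ.le]
  ring_nf

/-- the factor coming from the exponent `1 + η` -/
theorem eta_le {T B Z ε : ℝ} (hT : 1 ≤ T) (hB : 1 ≤ B) (hZ : 1 ≤ Z) (hε : 0 < ε)
    (h : T ≤ B * Z ^ 3) (hε1 : ε ≤ 1) : T ^ (1 + ε / 240000) ≤ T * (B * Z ^ (ε / 80000)) := by
  have hT0 : 0 < T := by linarith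
  have hB0 : 0 < B := by linarith
  have hZ0 : 0 < Z := by linarith
  rw [Real.rpow_add hT0, Real.rpow_one]
  apply mul_le_mul_of_nonneg_left _ hT0.le
  calc T ^ (ε / 240000) ≤ (B * Z ^ 3) ^ (ε / 240000) := by gcongr
    _ = B ^ (ε / 240000) * (Z ^ 3) ^ (ε / 240000) := by
        rw [Real.mul_rpow hB0.le (by positivity)]
    _ = B ^ (ε / 240000) * Z ^ (ε / 80000) := by
        rw [← Real.rpow_natCast Z 3, ← Real.rpow_mul hZ0.le]
        congr 2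
        push_cast
        ring
    _ ≤ B ^ (1 : ℝ) * Z ^ (ε / 80000) := by
        gcongr
        linarith
    _ = _ := by rw [Real.rpow_one]

theorem cls {ε B A : ℝ} (hε : 0 < ε) (hε1 : ε ≤ 1) (hB : 1 ≤ B) :
    ∃ C : ℝ, 0 ≤ C ∧ ∀ᶠ Z : ℝ in atTop, ∀ a b c d f z y X : ℝ,
      Par a b c d f z y Z ((a * b * c * d * f * z ^ 2 * y ^ 2) ^ (ε / 6)) (Z ^ (ε / 80000)) B X →
      Real.log X ≤ A * Real.log Z → ∀ S : Finset (ℤ × ℤ),
      (∀ e ∈ S, Cel B (Z ^ (ε / 80000)) a b c d f z y X e) →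
      (S.card : ℝ) ≤ C * (Z / (Z ^ (ε / 80000)) ^ 2) := by
  obtain ⟨K₁, hK₁, hq⟩ := Pool.Agent.Zk16.Q.quam (ε / 240000) (by positivity)
  obtain ⟨K₂, hK₂, hc⟩ := Pool.Agent.R418.C5.cubm (ε / 240000) (by positivity)
  obtain ⟨K₃, K₀, hK₃, hK₀, hs⟩ := Pool.Agent.Zk16.P.small_k
  refine ⟨400 + 33 * K₁ * B ^ 2 + 129 * K₁ * B ^ 2 + 2049 * K₂ * B ^ 2 + K₃ * B, by positivity, ?_⟩
  have v1 : ∀ᶠ Z : ℝ in atTop, (46656 * B) * Z ^ ((1 : ℝ) / 8 + ε / 80000) ≤ Z ^ ((3 : ℝ) / 8) :=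
    ev_pow _ (by linarith)
  have v2 : ∀ᶠ Z : ℝ in atTop, (1000 * 32768 * B) * Z ^ ((3 : ℝ) / 8 + ε / 80000) ≤
      Z ^ ((3 : ℝ) / 4) := ev_pow _ (by linarith)
  have v3 : ∀ᶠ Z : ℝ in atTop, (10 ^ 60 * B) * Z ^ (10 * (ε / 80000)) ≤ Z ^ (ε / 96) :=
    ev_pow _ (by linarith)
  have v4 := ev_log A (show (0 : ℝ) < 1 / 10000 by norm_num)
  filter_upwards [v1, v2, v3, v4, eventually_ge_atTop K₀, eventually_ge_atTop (1 : ℝ)]
    with Z v1 v2 v3 v4 hZK hZ1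
  intro a b c d f z y X hP hlog S hS
  have hZ0 : 0 < Z := by linarith
  set ω := Z ^ (ε / 80000) with hω
  have hω1 : 1 ≤ ω := Real.one_le_rpow hZ1 (by positivity)
  have hω0 : 0 < ω := by linarith
  have hω80 : ω ^ 80 ≤ Z := by
    rw [hω, om_pow hZ0]
    calc Z ^ (((80 : ℕ) : ℝ) * (ε / 80000)) ≤ Z ^ (1 : ℝ) := by
          apply Real.rpow_le_rpow_of_exponent_le hZ1
          push_cast
          linarith
      _ = Z := Real.rpow_one Z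
  have hωZ : ω ≤ Z := (le_self_pow₀ hω1 (by norm_num)).trans hω80
  have hZω : 0 ≤ Z / ω ^ 2 := by positivity
  set n := a * b * c * d * f * z ^ 2 * y ^ 2 with hn
  have hn1 : 1 ≤ n := hP.npos
  have hnZ : n ≤ Z := hP.hn
  have hX1 := hP.hX1
  have hX0 : 0 < X := by linarith
  have hsX : 0 < √X := Real.sqrt_pos.mpr hX0
  set q := a * b ^ 2 * d * z ^ 3 * y with hqd
  set g := a * c * z * y ^ 2 with hgd
  set w := c * d * f ^ 2 * y with hwd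
  set m := b * c * d ^ 2 * f ^ 3 * z * y with hmd
  have hq1 : 1 ≤ q := by
    have := hP.ge 1 2 0 1 0 3 1
    calc (1 : ℝ) ≤ _ := this
      _ = _ := by rw [hqd]; ring
  have hg1 : 1 ≤ g := by
    have := hP.ge 1 0 1 0 0 1 2
    calc (1 : ℝ) ≤ _ := this
      _ = _ := by rw [hgd]; ring
  have hw1 : 1 ≤ w := by
    have := hP.ge 0 0 1 1 2 0 1
    calc (1 : ℝ) ≤ _ := this
      _ = _ := by rw [hwd]; ring
  have hm1 : 1 ≤ m := by
    have := hP.ge 0 1 1 2 3 1 1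
    calc (1 : ℝ) ≤ _ := this
      _ = _ := by rw [hmd]; ring
  have hBω1 : 1 ≤ B * ω := by nlinarith
  have hT1 : 1 ≤ B * ω * q := by nlinarith
  have hD1 : 1 ≤ B * ω * g := by nlinarith
  have hcomb : ∀ t : ℝ, 0 ≤ t → t ≤ 400 * (Z / ω ^ 2) ∨ t ≤ (33 * K₁ * B ^ 2) * (Z / ω ^ 2) ∨
      t ≤ (129 * K₁ * B ^ 2) * (Z / ω ^ 2) ∨ t ≤ (2049 * K₂ * B ^ 2) * (Z / ω ^ 2) ∨
      t ≤ (K₃ * B) * (Z / ω ^ 2) → t ≤ (400 + 33 * K₁ * B ^ 2 + 129 * K₁ * B ^ 2 +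
        2049 * K₂ * B ^ 2 + K₃ * B) * (Z / ω ^ 2) := by
    intro t _ ht
    have u1 : 0 ≤ (400 : ℝ) * (Z / ω ^ 2) := by positivity
    have u2 : 0 ≤ (33 * K₁ * B ^ 2) * (Z / ω ^ 2) := by positivity
    have u3 : 0 ≤ (129 * K₁ * B ^ 2) * (Z / ω ^ 2) := by positivity
    have u4 : 0 ≤ (2049 * K₂ * B ^ 2) * (Z / ω ^ 2) := by positivity
    have u5 : 0 ≤ (K₃ * B) * (Z / ω ^ 2) := by positivity
    rw [add_mul, add_mul, add_mul, add_mul]
    rcases ht with h | h | h | h | h <;> linarith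
  apply hcomb _ (Nat.cast_nonneg _)
  by_cases hI : X ≤ Z ^ ((1 : ℝ) / 4)
  · -- Case I
    left
    have h1 := triv hX1 S hS
    have h2 : X ^ ((5 : ℝ) / 2) ≤ Z ^ ((5 : ℝ) / 8) := by
      calc X ^ ((5 : ℝ) / 2) ≤ (Z ^ ((1 : ℝ) / 4)) ^ ((5 : ℝ) / 2) := by gcongr
        _ = Z ^ ((5 : ℝ) / 8) := by rw [← Real.rpow_mul hZ0.le]; norm_num
    have h3 : Z ^ ((5 : ℝ) / 8) ≤ Z / ω ^ 2 := by
      rw [le_div_iff₀ (by positivity), hω, om_pow hZ0, ← Real.rpow_add hZ0]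
      calc Z ^ ((5 : ℝ) / 8 + ((2 : ℕ) : ℝ) * (ε / 80000)) ≤ Z ^ (1 : ℝ) := by
            apply Real.rpow_le_rpow_of_exponent_le hZ1
            push_cast
            linarith
        _ = Z := Real.rpow_one Z
    linarith
  push Not at hI
  by_cases hII : n ≤ Z ^ ((1 : ℝ) / 16)
  · -- Case II
    right; left
    have hn2 : n ^ 2 ≤ Z ^ ((1 : ℝ) / 8) := by
      calc n ^ 2 ≤ (Z ^ ((1 : ℝ) / 16)) ^ 2 := by gcongr
        _ = Z ^ ((1 : ℝ) / 8) := by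
            rw [← Real.rpow_natCast (Z ^ ((1 : ℝ) / 16)), ← Real.rpow_mul hZ0.le]; norm_num
    have hn6 : n ^ 6 ≤ Z ^ ((3 : ℝ) / 8) := by
      calc n ^ 6 ≤ (Z ^ ((1 : ℝ) / 16)) ^ 6 := by gcongr
        _ = Z ^ ((3 : ℝ) / 8) := by
            rw [← Real.rpow_natCast (Z ^ ((1 : ℝ) / 16)), ← Real.rpow_mul hZ0.le]; norm_num
    have hqn : q ≤ Z ^ ((1 : ℝ) / 8) := hP.q_le.trans hn2
    have htn := hP.t_le.trans hn6
    have hsX8 : Z ^ ((1 : ℝ) / 8) ≤ √X := by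
      apply Real.le_sqrt_of_sq_le
      calc (Z ^ ((1 : ℝ) / 8)) ^ 2 = Z ^ ((1 : ℝ) / 4) := by
            rw [← Real.rpow_natCast (Z ^ ((1 : ℝ) / 8)), ← Real.rpow_mul hZ0.le]; norm_num
        _ ≤ X := hI.le
    have hsX3 : Z ^ ((3 : ℝ) / 8) ≤ √X ^ 3 := by
      calc Z ^ ((3 : ℝ) / 8) = (Z ^ ((1 : ℝ) / 8)) ^ 3 := by
            rw [← Real.rpow_natCast (Z ^ ((1 : ℝ) / 8)), ← Real.rpow_mul hZ0.le]; norm_num
        _ ≤ √X ^ 3 := by gcongr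
    have hX3 : Z ^ ((3 : ℝ) / 4) ≤ X ^ 3 := by
      calc Z ^ ((3 : ℝ) / 4) = (Z ^ ((1 : ℝ) / 4)) ^ 3 := by
            rw [← Real.rpow_natCast (Z ^ ((1 : ℝ) / 4)), ← Real.rpow_mul hZ0.le]; norm_num
        _ ≤ X ^ 3 := by gcongr
    have c1 : 46656 * (B * ω * q) ≤ √X ^ 3 := by
      refine le_trans ?_ hsX3
      refine le_trans ?_ v1
      rw [Real.rpow_add hZ0]
      calc 46656 * (B * ω * q) ≤ 46656 * (B * ω * Z ^ ((1 : ℝ) / 8)) := by gcongr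
        _ = _ := by rw [hω]; ring
    have c2 : 1000 * (32 * w) ^ 3 * (B * ω * q) ≤ X ^ 3 := by
      refine le_trans ?_ hX3
      refine le_trans ?_ v2
      rw [Real.rpow_add hZ0]
      have e5 : 1000 * (32 * w) ^ 3 * (B * ω * q) =
        1000 * 32768 * (B * ω) * (a * b ^ 2 * c ^ 3 * d ^ 4 * f ^ 6 * z ^ 3 * y ^ 4) := by
          rw [hwd, hqd]; ring
      rw [e5]
      calc 1000 * 32768 * (B * ω) * (a * b ^ 2 * c ^ 3 * d ^ 4 * f ^ 6 * z ^ 3 * y ^ 4) ≤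
          1000 * 32768 * (B * ω) * Z ^ ((3 : ℝ) / 8) := by gcongr
        _ = _ := by rw [hω]; ring
    have h1 := useQ hq hX0 hT1 (by linarith : 1 ≤ 32 * w) c1 c2 S hS
    have hwn : w ≤ √X := by
      have := hP.le (i1 := 0) (i2 := 0) (i3 := 1) (i4 := 1) (i5 := 2) (i6 := 0) (i7 := 1)
        (j1 := 2) (j2 := 2) (j3 := 2) (j4 := 2) (j5 := 2) (j6 := 4) (j7 := 4) (by norm_num)
        (by norm_num) (by norm_num) (by norm_num) (by norm_num) (by norm_num) (by norm_num)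
      calc w = a ^ 0 * b ^ 0 * c ^ 1 * d ^ 1 * f ^ 2 * z ^ 0 * y ^ 1 := by rw [hwd]; ring
        _ ≤ _ := this
        _ = n ^ 2 := by rw [hn]; ring
        _ ≤ Z ^ ((1 : ℝ) / 8) := hn2
        _ ≤ √X := hsX8
    have h2 : 1 + (32 * w) / √X ≤ 33 := by
      have : (32 * w) / √X ≤ 32 := by
        rw [div_le_iff₀ hsX]; linarith
      linarith
    have hZ8 : Z ^ ((1 : ℝ) / 8) ≤ Z := by
      calc Z ^ ((1 : ℝ) / 8) ≤ Z ^ (1 : ℝ) := by
            apply Real.rpow_le_rpow_of_exponent_le hZ1; norm_num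
        _ = Z := Real.rpow_one Z
    have h3 : (B * ω * q) ^ (1 + ε / 240000) ≤ (B * ω * q) * (B * ω) := by
      apply eta_le hT1 hB hZ1 hε _ hε1
      calc B * ω * q ≤ B * Z * Z := by
            have : q ≤ Z := hqn.trans hZ8
            gcongr
        _ = B * (Z ^ 2) := by ring
        _ ≤ B * Z ^ 3 := by
            have : Z ^ 2 ≤ Z ^ 3 := pow_le_pow_right₀ hZ1 (by norm_num)
            gcongr
    have h4 : ω ^ 2 * Z ^ ((1 : ℝ) / 8) ≤ Z / ω ^ 2 := by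
      rw [le_div_iff₀ (by positivity)]
      have e6 : ω ^ 2 * Z ^ ((1 : ℝ) / 8) * ω ^ 2 = ω ^ 4 * Z ^ ((1 : ℝ) / 8) := by ring
      rw [e6, hω, om_pow hZ0, ← Real.rpow_add hZ0]
      calc Z ^ (((4 : ℕ) : ℝ) * (ε / 80000) + (1 : ℝ) / 8) ≤ Z ^ (1 : ℝ) := by
            apply Real.rpow_le_rpow_of_exponent_le hZ1
            push_cast
            linarith
        _ = Z := Real.rpow_one Z
    calc (S.card : ℝ) ≤ K₁ * (B * ω * q) ^ (1 + ε / 240000) * (1 + (32 * w) / √X) := h1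
      _ ≤ K₁ * ((B * ω * q) * (B * ω)) * 33 := by gcongr
      _ = 33 * K₁ * B ^ 2 * (ω ^ 2 * q) := by ring
      _ ≤ 33 * K₁ * B ^ 2 * (ω ^ 2 * Z ^ ((1 : ℝ) / 8)) := by gcongr
      _ ≤ 33 * K₁ * B ^ 2 * (Z / ω ^ 2) := by gcongr
  push Not at hII
  -- Case III
  have hE : 10 ^ 60 * B * ω ^ 10 ≤ n ^ (ε / 6) := by
    calc 10 ^ 60 * B * ω ^ 10 = (10 ^ 60 * B) * Z ^ (10 * (ε / 80000)) := by
          rw [hω, om_pow hZ0]; norm_num
      _ ≤ Z ^ (ε / 96) := v3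
      _ = (Z ^ ((1 : ℝ) / 16)) ^ (ε / 6) := by
          rw [← Real.rpow_mul hZ0.le]; ring_nf
      _ ≤ n ^ (ε / 6) := by gcongr
  have hE4 : ω ^ 4 ≤ n ^ (ε / 6) := by
    refine le_trans ?_ hE
    have k1 : ω ^ 4 ≤ ω ^ 10 := pow_le_pow_right₀ hω1 (by norm_num)
    have k2 : (1 : ℝ) ≤ 10 ^ 60 * B := by nlinarith
    calc ω ^ 4 = 1 * ω ^ 4 := by ring
      _ ≤ (10 ^ 60 * B) * ω ^ 10 := mul_le_mul k2 k1 (by positivity) (by positivity)
  have hdiv : Z / ω ^ 4 ≤ Z := div_le_self hZ0.le (one_le_pow₀ hω1)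
  by_cases hq2 : q ≤ Z / ω ^ 4
  · right; right; left
    obtain ⟨c1, c2⟩ := hP.vq hE
    have h1 := useQ hq hX0 hT1 (by linarith : 1 ≤ 32 * w) c1 c2 S hS
    have h2 := hP.qmain hq2 hE4
    have h3 : (B * ω * q) ^ (1 + ε / 240000) ≤ (B * ω * q) * (B * ω) := by
      apply eta_le hT1 hB hZ1 hε _ hε1
      calc B * ω * q ≤ B * Z * Z := by
            have : q ≤ Z := hq2.trans hdiv
            gcongr
        _ = B * (Z ^ 2) := by ring
        _ ≤ B * Z ^ 3 := by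
            have : Z ^ 2 ≤ Z ^ 3 := pow_le_pow_right₀ hZ1 (by norm_num)
            gcongr
    have hw0 : 0 ≤ 1 + (32 * w) / √X := by positivity
    calc (S.card : ℝ) ≤ K₁ * (B * ω * q) ^ (1 + ε / 240000) * (1 + (32 * w) / √X) := h1
      _ ≤ K₁ * ((B * ω * q) * (B * ω)) * (1 + (32 * w) / √X) := by gcongr
      _ = K₁ * B ^ 2 * ω ^ 2 * (q * (1 + (32 * w) / √X)) := by ring
      _ ≤ K₁ * B ^ 2 * ω ^ 2 * (129 * (Z / ω ^ 4)) := by
          apply mul_le_mul_of_nonneg_left h2 (by positivity)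
      _ = 129 * K₁ * B ^ 2 * (Z / ω ^ 2) := by field_simp
  push Not at hq2
  have hhh := hP.hh hE hq2
  by_cases hg2 : g ≤ Z / ω ^ 4
  · right; right; right; left
    have c1 := hP.vc1 hE
    have c2 := hP.vc2 hE hq2
    have h1 := useC hc hX0 hD1 (by linarith : 1 ≤ 512 * m) c1 c2 S hS
    have h2 := hP.cmain hg2 hhh
    have h3 : (B * ω * g) ^ (1 + ε / 240000) ≤ (B * ω * g) * (B * ω) := by
      apply eta_le hD1 hB hZ1 hε _ hε1
      calc B * ω * g ≤ B * Z * Z := by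
            have : g ≤ Z := hg2.trans hdiv
            gcongr
        _ = B * (Z ^ 2) := by ring
        _ ≤ B * Z ^ 3 := by
            have : Z ^ 2 ≤ Z ^ 3 := pow_le_pow_right₀ hZ1 (by norm_num)
            gcongr
    have hm0 : 0 ≤ 1 + (512 * m) / √X := by positivity
    calc (S.card : ℝ) ≤ K₂ * (B * ω * g) ^ (1 + ε / 240000) * (1 + (512 * m) / √X) := h1
      _ ≤ K₂ * ((B * ω * g) * (B * ω)) * (1 + (512 * m) / √X) := by gcongr
      _ = K₂ * B ^ 2 * ω ^ 2 * (g * (1 + (512 * m) / √X)) := by ring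
      _ ≤ K₂ * B ^ 2 * ω ^ 2 * (2049 * (Z / ω ^ 4)) := by
          apply mul_le_mul_of_nonneg_left h2 (by positivity)
      _ = 2049 * K₂ * B ^ 2 * (Z / ω ^ 2) := by field_simp
  push Not at hg2
  right; right; right; right
  obtain ⟨r1, r2⟩ := hP.rest hq2 hg2
  have hKK : K₀ ≤ B * Z * ω ^ 45 := by
    have : (1 : ℝ) ≤ ω ^ 45 := one_le_pow₀ hω1
    have k1 : Z ≤ B * Z := by nlinarith
    have k2 : B * Z ≤ B * Z * ω ^ 45 := by nlinarith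
    linarith
  have hZK1 : Z ≤ B * Z * ω ^ 45 := by
    have : (1 : ℝ) ≤ ω ^ 45 := one_le_pow₀ hω1
    have k1 : Z ≤ B * Z := by nlinarith
    have k2 : B * Z ≤ B * Z * ω ^ 45 := by nlinarith
    linarith
  have hKX : 1000 * (B * Z * ω ^ 45) ≤ X := by
    have hX2 := hP.sX2
    rw [← hn] at hX2
    have hE0 : 0 ≤ n ^ (ε / 6) := by positivity
    have k1 : Z ^ 2 * (10 ^ 60 * B * ω ^ 10) ≤ n ^ 2 * (n ^ (ε / 6)) ^ 2 * ω ^ 32 := by
      have k3 : 10 ^ 60 * B * ω ^ 10 ≤ (n ^ (ε / 6)) ^ 2 := by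
        refine hE.trans (le_self_pow₀ ?_ (by norm_num))
        exact Real.one_le_rpow hn1 (by positivity)
      calc Z ^ 2 * (10 ^ 60 * B * ω ^ 10) ≤ (n * ω ^ 16) ^ 2 * (n ^ (ε / 6)) ^ 2 := by
            gcongr
        _ = _ := by ring
    have k2 : Z ^ 2 * (10 ^ 60 * B * ω ^ 10) ≤ 16 * X * ω ^ 32 := by
      refine k1.trans ?_
      gcongr
    have k4 : 16 * (1000 * (B * Z * ω ^ 45)) * ω ^ 32 ≤ Z ^ 2 * (10 ^ 60 * B * ω ^ 10) := by
      have k5 : ω ^ 67 ≤ Z := (pow_le_pow_right₀ hω1 (by norm_num)).trans hω80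
      calc 16 * (1000 * (B * Z * ω ^ 45)) * ω ^ 32 = 16000 * B * Z * ω ^ 10 * ω ^ 67 := by ring
        _ ≤ 16000 * B * Z * ω ^ 10 * Z := by gcongr
        _ = 16000 * (B * Z ^ 2 * ω ^ 10) := by ring
        _ ≤ 10 ^ 60 * (B * Z ^ 2 * ω ^ 10) := by
            apply mul_le_mul_of_nonneg_right (by norm_num) (by positivity)
        _ = _ := by ring
    have k6 : (16 * (1000 * (B * Z * ω ^ 45))) * ω ^ 32 ≤ (16 * X) * ω ^ 32 := k4.trans k2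
    have k7 := le_of_mul_le_mul_right k6 (by positivity)
    linarith
  have hlg : Real.log X ≤ (B * Z * ω ^ 45) ^ ((1 : ℝ) / 10000) := by
    refine hlog.trans (v4.trans ?_)
    gcongr
  have h1 := hs (B * Z * ω ^ 45) X hKK hKX hlg S (by
    intro e he
    have h := hS e he
    refine ⟨h.x1, h.x2, h.y0, h.ne, h.tot.trans ?_⟩
    calc B * ω * (a * b ^ 2 * c ^ 3 * d ^ 4 * f ^ 6 * z ^ 3 * y ^ 4) ≤ B * ω * (Z * ω ^ 44) := by
          gcongr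
      _ = B * Z * ω ^ 45 := by ring)
  have h2 : (B * Z * ω ^ 45) ^ ((99 : ℝ) / 100) ≤ B * (Z ^ ((99 : ℝ) / 100) * ω ^ 45) := by
    rw [mul_assoc, Real.mul_rpow (by positivity) (by positivity),
      Real.mul_rpow (by positivity) (by positivity)]
    have k1 : B ^ ((99 : ℝ) / 100) ≤ B := by
      calc B ^ ((99 : ℝ) / 100) ≤ B ^ (1 : ℝ) := by
            apply Real.rpow_le_rpow_of_exponent_le hB; norm_num
        _ = B := Real.rpow_one B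
    have k2 : (ω ^ 45) ^ ((99 : ℝ) / 100) ≤ ω ^ 45 := by
      calc (ω ^ 45) ^ ((99 : ℝ) / 100) ≤ (ω ^ 45) ^ (1 : ℝ) := by
            apply Real.rpow_le_rpow_of_exponent_le (one_le_pow₀ hω1); norm_num
        _ = ω ^ 45 := Real.rpow_one _
    gcongr
  have h3 : Z ^ ((99 : ℝ) / 100) * ω ^ 45 ≤ Z / ω ^ 2 := by
    rw [le_div_iff₀ (by positivity)]
    have e6 : Z ^ ((99 : ℝ) / 100) * ω ^ 45 * ω ^ 2 = Z ^ ((99 : ℝ) / 100) * ω ^ 47 := by ring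
    rw [e6, hω, om_pow hZ0, ← Real.rpow_add hZ0]
    calc Z ^ ((99 : ℝ) / 100 + ((47 : ℕ) : ℝ) * (ε / 80000)) ≤ Z ^ (1 : ℝ) := by
          apply Real.rpow_le_rpow_of_exponent_le hZ1
          push_cast
          linarith
      _ = Z := Real.rpow_one Z
  calc (S.card : ℝ) ≤ K₃ * (B * Z * ω ^ 45) ^ ((99 : ℝ) / 100) := h1
    _ ≤ K₃ * (B * (Z ^ ((99 : ℝ) / 100) * ω ^ 45)) := by gcongr
    _ ≤ K₃ * (B * (Z / ω ^ 2)) := by gcongr
    _ = K₃ * B * (Z / ω ^ 2) := by ring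

end Pool.Agent.Zk16.V
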