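import Pool.Agent.Zk16.V.C

/-! Summation over dyadic cells. -/

set_option autoImplicit false

open Finset Filter

namespace Pool.Agent.Zk16.V

/-- a point with its multiplicative data -/
structure Pt (B Θ ε A Z : ℝ) (e : ℤ × ℤ) (a b c d f z y : ℕ) : Prop where
  ha : 1 ≤ a
  hb : 1 ≤ b
  hc : 1 ≤ c
  hd : 1 ≤ d
  hf : 1 ≤ f
  hz : 1 ≤ z
  hy : 1 ≤ y
  hn : (a * b * c * d * f * z ^ 2 * y ^ 2 : ℝ) ≤ Z
  hN : (a * b * c * d * f * z ^ 2 * y ^ 2 : ℝ) ^ (1 + ε / 6) ≤ 2 * √(e.1 : ℝ)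
  lx : Real.log (e.1 : ℝ) ≤ A * Real.log Z
  x0 : 0 < e.1
  y0 : 0 < e.2
  y2 : (e.2 : ℝ) ^ 2 ≤ 2 * (e.1 : ℝ) ^ 3
  ne : e.1 ^ 3 ≠ e.2 ^ 2
  cub : ∃ t a' b' : ℤ, (b * c * d ^ 2 * f ^ 3 * z * y : ℕ) * a' = t ^ 2 - e.1 ∧
    ((b * c * d ^ 2 * f ^ 3 * z * y : ℕ) : ℤ) ^ 2 * b' = t ^ 3 - 3 * e.1 * t + 2 * e.2
  qua : ∃ t a' b' c' : ℤ, (c * d * f ^ 2 * y : ℕ) * a' = t ^ 2 - e.1 ∧
    ((c * d * f ^ 2 * y : ℕ) : ℤ) ^ 2 * b' = t ^ 3 - 3 * e.1 * t + 2 * e.2 ∧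
    ((c * d * f ^ 2 * y : ℕ) : ℤ) ^ 3 * c' = t ^ 4 - 6 * e.1 * t ^ 2 + 8 * e.2 * t - 3 * e.1 ^ 2
  tot : |(e.1 : ℝ) ^ 3 - (e.2 : ℝ) ^ 2| ≤
    B * Θ * (a * b ^ 2 * c ^ 3 * d ^ 4 * f ^ 6 * z ^ 3 * y ^ 4)
  r3 : ∀ r : ℤ, r ^ 3 - 3 * e.1 * r + 2 * e.2 ≠ 0
  r4 : ∀ r : ℤ, r ^ 4 - 6 * e.1 * r ^ 2 + 8 * e.2 * r - 3 * e.1 ^ 2 ≠ 0

/-- dyadic bounds -/
theorem dy {a : ℕ} (ha : 1 ≤ a) : (2 : ℝ) ^ (Nat.log 2 a) ≤ a ∧ (a : ℝ) ≤ 2 * 2 ^ (Nat.log 2 a) := by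
  constructor
  · have := Nat.pow_log_le_self 2 (show a ≠ 0 by omega)
    exact_mod_cast this
  · have := Nat.lt_pow_succ_log_self (b := 2) (by norm_num) a
    have h2 : a ≤ 2 * 2 ^ (Nat.log 2 a) := by
      rw [Nat.succ_eq_add_one, pow_succ] at this
      omega
    exact_mod_cast h2

theorem Pt.par {B Θ ε A Z : ℝ} {e : ℤ × ℤ} {a b c d f z y : ℕ} (hε : 0 < ε) (hB : 1 ≤ B)
    (hΘ : 1 ≤ Θ) (h : Pt B Θ ε A Z e a b c d f z y) :
    Par (2 ^ Nat.log 2 a) (2 ^ Nat.log 2 b) (2 ^ Nat.log 2 c) (2 ^ Nat.log 2 d) (2 ^ Nat.log 2 f)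
      (2 ^ Nat.log 2 z) (2 ^ Nat.log 2 y) Z
      (((2 : ℝ) ^ Nat.log 2 a * 2 ^ Nat.log 2 b * 2 ^ Nat.log 2 c * 2 ^ Nat.log 2 d *
        2 ^ Nat.log 2 f * (2 ^ Nat.log 2 z) ^ 2 * (2 ^ Nat.log 2 y) ^ 2) ^ (ε / 6)) Θ
      (2 ^ 23 * B) (2 ^ Nat.log 2 e.1.toNat) ∧
    Cel (2 ^ 23 * B) Θ (2 ^ Nat.log 2 a) (2 ^ Nat.log 2 b) (2 ^ Nat.log 2 c) (2 ^ Nat.log 2 d)
      (2 ^ Nat.log 2 f) (2 ^ Nat.log 2 z) (2 ^ Nat.log 2 y) (2 ^ Nat.log 2 e.1.toNat) e := by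
  obtain ⟨a1, a2⟩ := dy h.ha
  obtain ⟨b1, b2⟩ := dy h.hb
  obtain ⟨c1, c2⟩ := dy h.hc
  obtain ⟨d1, d2⟩ := dy h.hd
  obtain ⟨f1, f2⟩ := dy h.hf
  obtain ⟨z1, z2⟩ := dy h.hz
  obtain ⟨y1, y2⟩ := dy h.hy
  have hx0 := h.x0
  have hxn : ((e.1.toNat : ℕ) : ℤ) = e.1 := Int.toNat_of_nonneg hx0.le
  have hxr : ((e.1.toNat : ℕ) : ℝ) = (e.1 : ℝ) := by exact_mod_cast hxn
  obtain ⟨x1, x2⟩ := dy (a := e.1.toNat) (by omega)
  rw [hxr] at x1 x2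
  have pa : (1 : ℝ) ≤ 2 ^ Nat.log 2 a := one_le_pow₀ (by norm_num)
  have pb : (1 : ℝ) ≤ 2 ^ Nat.log 2 b := one_le_pow₀ (by norm_num)
  have pc : (1 : ℝ) ≤ 2 ^ Nat.log 2 c := one_le_pow₀ (by norm_num)
  have pd : (1 : ℝ) ≤ 2 ^ Nat.log 2 d := one_le_pow₀ (by norm_num)
  have pf : (1 : ℝ) ≤ 2 ^ Nat.log 2 f := one_le_pow₀ (by norm_num)
  have pz : (1 : ℝ) ≤ 2 ^ Nat.log 2 z := one_le_pow₀ (by norm_num)
  have py : (1 : ℝ) ≤ 2 ^ Nat.log 2 y := one_le_pow₀ (by norm_num)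
  have px : (1 : ℝ) ≤ 2 ^ Nat.log 2 e.1.toNat := one_le_pow₀ (by norm_num)
  set a0 : ℝ := 2 ^ Nat.log 2 a
  set b0 : ℝ := 2 ^ Nat.log 2 b
  set c0 : ℝ := 2 ^ Nat.log 2 c
  set d0 : ℝ := 2 ^ Nat.log 2 d
  set f0 : ℝ := 2 ^ Nat.log 2 f
  set z0 : ℝ := 2 ^ Nat.log 2 z
  set y0 : ℝ := 2 ^ Nat.log 2 y
  set X : ℝ := 2 ^ Nat.log 2 e.1.toNat
  have hnn : a0 * b0 * c0 * d0 * f0 * z0 ^ 2 * y0 ^ 2 ≤ (a * b * c * d * f * z ^ 2 * y ^ 2 : ℝ) := by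
    gcongr
  have hn0 : 1 ≤ a0 * b0 * c0 * d0 * f0 * z0 ^ 2 * y0 ^ 2 := by
    have := one_le_gen pa pb pc pd pf pz py 1 1 1 1 1 2 2
    simpa using this
  have hXx : (e.1 : ℝ) ≤ 4 * X := by linarith
  have hy1 : (1 : ℝ) ≤ y := by exact_mod_cast h.hy
  have hz1 : (1 : ℝ) ≤ z := by exact_mod_cast h.hz
  have hf1 : (1 : ℝ) ≤ f := by exact_mod_cast h.hf
  have hd1 : (1 : ℝ) ≤ d := by exact_mod_cast h.hd
  have hc1 : (1 : ℝ) ≤ c := by exact_mod_cast h.hc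
  have hb1 : (1 : ℝ) ≤ b := by exact_mod_cast h.hb
  have ha1 : (1 : ℝ) ≤ a := by exact_mod_cast h.ha
  constructor
  · refine ⟨pa, pb, pc, pd, pf, pz, py, by nlinarith, hΘ, Real.one_le_rpow hn0 (by positivity), px,
      hnn.trans h.hn, ?_⟩
    have e1 : (a0 * b0 * c0 * d0 * f0 * z0 ^ 2 * y0 ^ 2) *
        (a0 * b0 * c0 * d0 * f0 * z0 ^ 2 * y0 ^ 2) ^ (ε / 6) =
        (a0 * b0 * c0 * d0 * f0 * z0 ^ 2 * y0 ^ 2) ^ (1 + ε / 6) := by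
      rw [Real.rpow_add (by linarith), Real.rpow_one]
    rw [e1]
    calc (a0 * b0 * c0 * d0 * f0 * z0 ^ 2 * y0 ^ 2) ^ (1 + ε / 6) ≤
        (a * b * c * d * f * z ^ 2 * y ^ 2 : ℝ) ^ (1 + ε / 6) := by gcongr
      _ ≤ 2 * √(e.1 : ℝ) := h.hN
      _ ≤ 2 * √(4 * X) := by gcongr
      _ = 2 * (2 * √X) := by
          rw [Real.sqrt_mul (by norm_num)]
          have : √(4 : ℝ) = 2 := by
            rw [show (4 : ℝ) = 2 ^ 2 by norm_num]; exact Real.sqrt_sq (by norm_num)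
          rw [this]
      _ = 4 * √X := by ring
  · have hT : (a * b ^ 2 * c ^ 3 * d ^ 4 * f ^ 6 * z ^ 3 * y ^ 4 : ℝ) ≤
        2 ^ 23 * (a0 * b0 ^ 2 * c0 ^ 3 * d0 ^ 4 * f0 ^ 6 * z0 ^ 3 * y0 ^ 4) := by
      calc (a * b ^ 2 * c ^ 3 * d ^ 4 * f ^ 6 * z ^ 3 * y ^ 4 : ℝ) ≤
          (2 * a0) * (2 * b0) ^ 2 * (2 * c0) ^ 3 * (2 * d0) ^ 4 * (2 * f0) ^ 6 * (2 * z0) ^ 3 *
            (2 * y0) ^ 4 := by gcongr
        _ = _ := by ring
    refine ⟨x1, hXx, h.y0, h.y2, h.ne, ?_, ?_, ?_, h.r3, h.r4⟩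
    · refine ⟨((b * c * d ^ 2 * f ^ 3 * z * y : ℕ) : ℤ), ?_, ?_, h.cub, ?_⟩
      · have : 0 < b * c * d ^ 2 * f ^ 3 * z * y := by
          have := h.hb; have := h.hc; have := h.hd; have := h.hf; have := h.hz; have := h.hy
          positivity
        exact_mod_cast this
      · push_cast
        calc (b * c * d ^ 2 * f ^ 3 * z * y : ℝ) ≤ (2 * b0) * (2 * c0) * (2 * d0) ^ 2 *
              (2 * f0) ^ 3 * (2 * z0) * (2 * y0) := by gcongr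
          _ = _ := by ring
      · refine h.tot.trans ?_
        push_cast
        calc B * Θ * (a * b ^ 2 * c ^ 3 * d ^ 4 * f ^ 6 * z ^ 3 * y ^ 4 : ℝ) =
            B * Θ * (a * c * z * y ^ 2) * (b * c * d ^ 2 * f ^ 3 * z * y : ℝ) ^ 2 := by ring
          _ ≤ B * Θ * ((2 * a0) * (2 * c0) * (2 * z0) * (2 * y0) ^ 2) *
              (b * c * d ^ 2 * f ^ 3 * z * y : ℝ) ^ 2 := by gcongr
          _ = 2 ^ 5 * B * Θ * (a0 * c0 * z0 * y0 ^ 2) * (b * c * d ^ 2 * f ^ 3 * z * y : ℝ) ^ 2 := by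
              ring
          _ ≤ _ := by gcongr <;> norm_num
    · refine ⟨((c * d * f ^ 2 * y : ℕ) : ℤ), ?_, ?_, h.qua, ?_⟩
      · have : 0 < c * d * f ^ 2 * y := by
          have := h.hc; have := h.hd; have := h.hf; have := h.hy
          positivity
        exact_mod_cast this
      · push_cast
        calc (c * d * f ^ 2 * y : ℝ) ≤ (2 * c0) * (2 * d0) * (2 * f0) ^ 2 * (2 * y0) := by gcongr
          _ = _ := by ring
      · refine h.tot.trans ?_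
        push_cast
        calc B * Θ * (a * b ^ 2 * c ^ 3 * d ^ 4 * f ^ 6 * z ^ 3 * y ^ 4 : ℝ) =
            B * Θ * (a * b ^ 2 * d * z ^ 3 * y) * (c * d * f ^ 2 * y : ℝ) ^ 3 := by ring
          _ ≤ B * Θ * ((2 * a0) * (2 * b0) ^ 2 * (2 * d0) * (2 * z0) ^ 3 * (2 * y0)) *
              (c * d * f ^ 2 * y : ℝ) ^ 3 := by gcongr
          _ = 2 ^ 8 * B * Θ * (a0 * b0 ^ 2 * d0 * z0 ^ 3 * y0) * (c * d * f ^ 2 * y : ℝ) ^ 3 := by
              ring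
          _ ≤ _ := by gcongr <;> norm_num
    · refine h.tot.trans ?_
      calc B * Θ * (a * b ^ 2 * c ^ 3 * d ^ 4 * f ^ 6 * z ^ 3 * y ^ 4 : ℝ) ≤
          B * Θ * (2 ^ 23 * (a0 * b0 ^ 2 * c0 ^ 3 * d0 ^ 4 * f0 ^ 6 * z0 ^ 3 * y0 ^ 4)) := by gcongr
        _ = _ := by ring

/-- all points -/
theorem allpt {ε B A : ℝ} (hε : 0 < ε) (hε1 : ε ≤ 1) (hB : 1 ≤ B) (hA : 1 ≤ A) :
    ∃ C : ℝ, 0 ≤ C ∧ ∀ᶠ Z : ℝ in atTop, ∀ S : Finset (ℤ × ℤ),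
      (∀ e ∈ S, ∃ a b c d f z y : ℕ, Pt B (Z ^ (ε / 80000)) ε A Z e a b c d f z y) →
      (S.card : ℝ) ≤ C * (Z / Z ^ (ε / 80000)) := by
  classical
  obtain ⟨C, hC, hcl⟩ := cls (ε := ε) (B := 2 ^ 23 * B) (A := A) hε hε1 (by nlinarith)
  refine ⟨C, hC, ?_⟩
  have v1 := ev_log (2 * A / Real.log 2 + 1) (show (0 : ℝ) < ε / 80000 / 8 by positivity)
  have v2 : ∀ᶠ Z : ℝ in atTop, 1 ≤ Real.log Z := by
    have := Real.tendsto_log_atTop.eventually (eventually_ge_atTop (1 : ℝ))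
    exact this
  filter_upwards [hcl, v1, v2, eventually_ge_atTop (1 : ℝ)] with Z hcl v1 v2 hZ1
  intro S hS
  have hZ0 : 0 < Z := by linarith
  set ω := Z ^ (ε / 80000) with hω
  have hω1 : 1 ≤ ω := Real.one_le_rpow hZ1 (by positivity)
  have hω0 : 0 < ω := by linarith
  choose! ga gb gc gd gf gz gy hg using hS
  set L : ℕ := ⌊A * Real.log Z / Real.log 2⌋₊ with hL
  have hl2 : 0 < Real.log 2 := Real.log_pos (by norm_num)
  have hlab : ∀ {m : ℕ}, 1 ≤ m → Real.log m ≤ A * Real.log Z → Nat.log 2 m < L + 1 := by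
    intro m hm h1
    rw [Nat.lt_add_one_iff, hL]
    apply Nat.le_floor
    rw [le_div_iff₀ hl2]
    have h2 : ((2 : ℝ) ^ (Nat.log 2 m)) ≤ m := (dy hm).1
    have h3 := Real.log_le_log (by positivity) h2
    rw [Real.log_pow] at h3
    linarith
  let lab : ℤ × ℤ → Fin 8 → ℕ := fun e => ![Nat.log 2 (ga e), Nat.log 2 (gb e), Nat.log 2 (gc e),
    Nat.log 2 (gd e), Nat.log 2 (gf e), Nat.log 2 (gz e), Nat.log 2 (gy e), Nat.log 2 e.1.toNat]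
  have hmap : ∀ e ∈ S, lab e ∈ Fintype.piFinset (fun _ : Fin 8 => range (L + 1)) := by
    intro e he
    have h := hg e he
    have hZle : ∀ m : ℕ, 1 ≤ m → m ∣ (ga e) * gb e * gc e * gd e * gf e * (gz e) ^ 2 * (gy e) ^ 2 →
        Real.log m ≤ A * Real.log Z := by
      intro m hm hd
      have hpos : 0 < (ga e) * gb e * gc e * gd e * gf e * (gz e) ^ 2 * (gy e) ^ 2 := by
        have := h.ha; have := h.hb; have := h.hc; have := h.hd; have := h.hf; have := h.hz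
        have := h.hy
        positivity
      have h1 := Nat.le_of_dvd hpos hd
      have h2 : (m : ℝ) ≤ Z := by
        refine le_trans ?_ h.hn
        exact_mod_cast h1
      have h3 := Real.log_le_log (by exact_mod_cast hm) h2
      nlinarith
    rw [Fintype.mem_piFinset]
    intro i
    rw [mem_range]
    fin_cases i
    · apply hlab h.ha
      apply hZle _ h.ha
      exact ⟨gb e * gc e * gd e * gf e * (gz e) ^ 2 * (gy e) ^ 2, by ring⟩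
    · apply hlab h.hb
      apply hZle _ h.hb
      exact ⟨ga e * gc e * gd e * gf e * (gz e) ^ 2 * (gy e) ^ 2, by ring⟩
    · apply hlab h.hc
      apply hZle _ h.hc
      exact ⟨ga e * gb e * gd e * gf e * (gz e) ^ 2 * (gy e) ^ 2, by ring⟩
    · apply hlab h.hd
      apply hZle _ h.hd
      exact ⟨ga e * gb e * gc e * gf e * (gz e) ^ 2 * (gy e) ^ 2, by ring⟩
    · apply hlab h.hf
      apply hZle _ h.hf
      exact ⟨ga e * gb e * gc e * gd e * (gz e) ^ 2 * (gy e) ^ 2, by ring⟩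
    · apply hlab h.hz
      apply hZle _ h.hz
      exact ⟨ga e * gb e * gc e * gd e * gf e * (gz e) * (gy e) ^ 2, by ring⟩
    · apply hlab h.hy
      apply hZle _ h.hy
      exact ⟨ga e * gb e * gc e * gd e * gf e * (gz e) ^ 2 * (gy e), by ring⟩
    · have hx0 := h.x0
      have hxn : ((e.1.toNat : ℕ) : ℤ) = e.1 := Int.toNat_of_nonneg hx0.le
      have hxr : ((e.1.toNat : ℕ) : ℝ) = (e.1 : ℝ) := by exact_mod_cast hxn
      apply hlab (m := e.1.toNat) (by omega)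
      rw [hxr]
      exact h.lx
  have hfib : ∀ l ∈ Fintype.piFinset (fun _ : Fin 8 => range (L + 1)),
      ((S.filter (fun e => lab e = l)).card : ℝ) ≤ C * (Z / ω ^ 2) := by
    intro l _
    rcases (S.filter (fun e => lab e = l)).eq_empty_or_nonempty with h0 | h0
    · rw [h0, card_empty]
      push_cast
      positivity
    · obtain ⟨e₀, he₀⟩ := h0
      rw [mem_filter] at he₀
      have hp := ((hg e₀ he₀.1).par hε hB hω1).1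
      have hll : ∀ e, lab e = l → Nat.log 2 (ga e) = l 0 ∧ Nat.log 2 (gb e) = l 1 ∧
          Nat.log 2 (gc e) = l 2 ∧ Nat.log 2 (gd e) = l 3 ∧ Nat.log 2 (gf e) = l 4 ∧
          Nat.log 2 (gz e) = l 5 ∧ Nat.log 2 (gy e) = l 6 ∧ Nat.log 2 e.1.toNat = l 7 := by
        intro e he
        rw [← he]
        exact ⟨rfl, rfl, rfl, rfl, rfl, rfl, rfl, rfl⟩
      have hx0 := (hg e₀ he₀.1).x0
      have hxn : ((e₀.1.toNat : ℕ) : ℤ) = e₀.1 := Int.toNat_of_nonneg hx0.le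
      have hxr : ((e₀.1.toNat : ℕ) : ℝ) = (e₀.1 : ℝ) := by exact_mod_cast hxn
      have hlogX : Real.log (2 ^ Nat.log 2 e₀.1.toNat) ≤ A * Real.log Z := by
        refine le_trans ?_ (hg e₀ he₀.1).lx
        apply Real.log_le_log (by positivity)
        have := (dy (a := e₀.1.toNat) (by omega)).1
        rw [hxr] at this
        exact this
      obtain ⟨q0, q1, q2, q3, q4, q5, q6, q7⟩ := hll e₀ he₀.2
      rw [q0, q1, q2, q3, q4, q5, q6, q7] at hp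
      rw [q7] at hlogX
      apply hcl _ _ _ _ _ _ _ _ hp hlogX
      intro e he
      rw [mem_filter] at he
      have hc := ((hg e he.1).par hε hB hω1).2
      obtain ⟨q0, q1, q2, q3, q4, q5, q6, q7⟩ := hll e he.2
      rw [q0, q1, q2, q3, q4, q5, q6, q7] at hc
      exact hc
  have hcard := card_eq_sum_card_fiberwise hmap
  have hL8 : ((L : ℝ) + 1) ^ 8 ≤ ω := by
    have h1 : (L : ℝ) + 1 ≤ (2 * A / Real.log 2 + 1) * Real.log Z := by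
      have h2 : (L : ℝ) ≤ A * Real.log Z / Real.log 2 := Nat.floor_le (by positivity)
      have h3 : A * Real.log Z / Real.log 2 ≤ 2 * A / Real.log 2 * Real.log Z := by
        rw [div_mul_eq_mul_div]
        gcongr
        nlinarith
      linarith
    calc ((L : ℝ) + 1) ^ 8 ≤ (Z ^ (ε / 80000 / 8)) ^ 8 := by
          have := h1.trans v1
          gcongr
      _ = ω := by
          rw [hω, ← Real.rpow_natCast (Z ^ (ε / 80000 / 8)), ← Real.rpow_mul hZ0.le]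
          congr 1
          push_cast
          ring
  calc (S.card : ℝ) = ∑ l ∈ Fintype.piFinset (fun _ : Fin 8 => range (L + 1)),
        ((S.filter (fun e => lab e = l)).card : ℝ) := by
        rw [hcard]; push_cast; rfl
    _ ≤ ∑ _l ∈ Fintype.piFinset (fun _ : Fin 8 => range (L + 1)), C * (Z / ω ^ 2) :=
        sum_le_sum hfib
    _ = ((L : ℝ) + 1) ^ 8 * (C * (Z / ω ^ 2)) := by
        rw [sum_const, nsmul_eq_mul, Fintype.card_piFinset_const, card_range]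
        push_cast
        simp
    _ ≤ ω * (C * (Z / ω ^ 2)) := by gcongr
    _ = C * (Z / ω) := by field_simp

end Pool.Agent.Zk16.V
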